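import Mathlib

/-!
# Slopes of the longest monochromatic arithmetic progressions in the Fibonacci word

For every `d ≥ 1`, `(A(d) - 1) / d < √5 / τ`.
-/

set_option autoImplicit false

namespace Pool.Agent.Results.MP_ca4252_co.SlopeBound

open scoped goldenRatio

/-! ### Definitions -/

/-- The substitution `0 ↦ 01`, `1 ↦ 0` (`false` is the letter `0` and `true` the letter `1`). -/
def sub : Bool → List Bool
  | false => [false, true]
  | true => [false]

/-- The prefix `f_0 ⋯ f_{n-1}`. -/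
def pre (f : ℕ → Bool) (n : ℕ) : List Bool := (List.range n).map f

/-- `f` is fixed by the substitution: the image of every prefix of `f` is a prefix of `f`. -/
def IsFib (f : ℕ → Bool) : Prop :=
  ∀ n : ℕ, (pre f n).flatMap sub = pre f ((pre f n).flatMap sub).length

/-- `f` contains a monochromatic arithmetic progression of length `k` and difference `d`. -/
def HasAP (f : ℕ → Bool) (d k : ℕ) : Prop := ∃ i : ℕ, ∀ j : ℕ, j < k → f (i + j * d) = f i

/-! ### Numerical facts -/

lemma tsq : φ * φ = φ + 1 := by have := Real.goldenRatio_sq; nlinarith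

lemma tb : (1.618 : ℝ) < φ ∧ φ < 1.6181 := by
  have h0 := tsq
  have h1 := Real.one_lt_goldenRatio
  have h2 := Real.goldenRatio_lt_two
  constructor <;> nlinarith

lemma tirr : Irrational φ := Real.goldenRatio_irrational

lemma s5 : Real.sqrt 5 = 2 * φ - 1 := by
  unfold Real.goldenRatio; ring

lemma ratio : Real.sqrt 5 / φ = 3 - φ := by
  rw [s5, div_eq_iff (by linarith [tb.1])]
  linarith [tsq]

lemma fract_pos (m : ℕ) (hm : 0 < m) : 0 < Int.fract ((m : ℝ) * φ) := by
  have h1 : Irrational ((m : ℝ) * φ) := tirr.natCast_mul hm.ne'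
  rcases (Int.fract_nonneg ((m : ℝ) * φ)).lt_or_eq with h | h
  · exact h
  · exfalso
    rw [eq_comm, Int.fract_eq_iff] at h
    obtain ⟨-, -, z, hz⟩ := h
    exact h1 ⟨z, by push_cast; linarith⟩

/-! ### The rotation coding -/

/-- The coding of the rotation by `τ`. -/
noncomputable def g (i : ℕ) : Bool := decide (Int.fract (((i + 1 : ℕ) : ℝ) * φ) < 2 - φ)

lemma floor_succ (m : ℕ) :
    ⌊((m + 1 : ℕ) : ℝ) * φ⌋ = ⌊(m : ℝ) * φ⌋ + (if Int.fract ((m : ℝ) * φ) < 2 - φ then 1 else 2) := by
  have h1 := Int.floor_add_fract ((m : ℝ) * φ)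
  have h2 := Int.fract_nonneg ((m : ℝ) * φ)
  have h3 := Int.fract_lt_one ((m : ℝ) * φ)
  have h4 := tb
  norm_num at h4
  rw [Int.floor_eq_iff]
  split_ifs with h
  · push_cast
    constructor <;> linarith
  · push_cast
    constructor <;> linarith

/-- the letter at position `⌊m τ⌋ - 1` is `0` -/
lemma g_first {n L : ℕ} (hL : ((L : ℤ) + 1) = ⌊((n + 1 : ℕ) : ℝ) * φ⌋) : g L = false := by
  unfold g
  rw [decide_eq_false_iff_not, not_lt]
  set ε := Int.fract (((n + 1 : ℕ) : ℝ) * φ) with hε
  have h1 := Int.floor_add_fract (((n + 1 : ℕ) : ℝ) * φ)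
  rw [← hε, ← hL] at h1
  have h2 : 0 < ε := fract_pos (n + 1) (by omega)
  have h3 : ε < 1 := Int.fract_lt_one _
  have h4 := tb
  norm_num at h4
  have h5 := tsq
  have h6 : Int.fract (((L + 1 : ℕ) : ℝ) * φ) = 1 - ε * (φ - 1) := by
    rw [Int.fract_eq_iff]
    refine ⟨by nlinarith, by nlinarith, (L : ℤ) + 1 + (n + 1) - 1, ?_⟩
    push_cast at h1 ⊢
    have h7 : (L : ℝ) + 1 = (n + 1) * φ - ε := by linarith
    rw [h7]
    linear_combination ((n : ℝ) + 1) * h5
  rw [h6]
  nlinarith

/-- if `g n = 0`, the next letter is `1` -/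
lemma g_second {n L : ℕ} (hL : ((L : ℤ) + 1) = ⌊((n + 1 : ℕ) : ℝ) * φ⌋) (hg : g n = false) :
    g (L + 1) = true := by
  unfold g at hg ⊢
  rw [decide_eq_false_iff_not, not_lt] at hg
  rw [decide_eq_true_eq]
  set ε := Int.fract (((n + 1 : ℕ) : ℝ) * φ) with hε
  have h1 := Int.floor_add_fract (((n + 1 : ℕ) : ℝ) * φ)
  rw [← hε, ← hL] at h1
  have h3 : ε < 1 := Int.fract_lt_one _
  have h4 := tb
  norm_num at h4
  have h5 := tsq
  have hne : ε ≠ 2 - φ := by
    intro he
    have h8 : Irrational (((n + 2 : ℕ) : ℝ) * φ) := tirr.natCast_mul (by omega)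
    apply h8
    refine ⟨(L + 3 : ℤ), ?_⟩
    rw [he] at h1
    push_cast at h1 ⊢
    linarith
  have hgt : 2 - φ < ε := lt_of_le_of_ne hg hne.symm
  have h6 : Int.fract (((L + 1 + 1 : ℕ) : ℝ) * φ) = (1 - ε) * (φ - 1) := by
    rw [Int.fract_eq_iff]
    refine ⟨by nlinarith, by nlinarith, (L : ℤ) + 1 + (n + 1) + 1, ?_⟩
    push_cast at h1 ⊢
    have h7 : (L : ℝ) + 1 + 1 = (n + 1) * φ - ε + 1 := by linarith
    rw [h7]
    have h9 : (L : ℝ) = (n + 1) * φ - ε - 1 := by linarith
    rw [h9]
    linear_combination ((n : ℝ) + 1) * h5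
  rw [h6]
  nlinarith

/-- images of prefixes -/
def W (f : ℕ → Bool) (n : ℕ) : List Bool := (pre f n).flatMap sub

lemma pre_succ (f : ℕ → Bool) (n : ℕ) : pre f (n + 1) = pre f n ++ [f n] := by
  unfold pre; rw [List.range_succ, List.map_append]; rfl

lemma W_succ (f : ℕ → Bool) (n : ℕ) : W f (n + 1) = W f n ++ sub (f n) := by
  unfold W; rw [pre_succ, List.flatMap_append]; simp

lemma W_zero (f : ℕ → Bool) : W f 0 = [] := rfl

lemma g_eq (n : ℕ) : (if Int.fract (((n + 1 : ℕ) : ℝ) * φ) < 2 - φ then (1 : ℤ) else 2) =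
    (sub (g n)).length := by
  unfold g
  by_cases h : Int.fract (((n + 1 : ℕ) : ℝ) * φ) < 2 - φ
  · rw [if_pos h, decide_eq_true h]; rfl
  · rw [if_neg h, decide_eq_false h]; rfl

lemma W_length {f : ℕ → Bool} (n : ℕ) (h : ∀ i < n, f i = g i) :
    (((W f n).length : ℤ) + 1) = ⌊((n + 1 : ℕ) : ℝ) * φ⌋ := by
  induction n with
  | zero =>
    rw [W_zero, eq_comm, Int.floor_eq_iff]
    have := tb
    norm_num at this ⊢
    constructor <;> linarith
  | succ n ih =>
    rw [W_succ, List.length_append, floor_succ (n + 1), ← ih (fun i hi => h i (by omega)), g_eq,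
      h n (by omega)]
    push_cast
    ring

lemma W_ge (f : ℕ → Bool) (h0 : f 0 = false) (n : ℕ) (hn : 1 ≤ n) : n + 1 ≤ (W f n).length := by
  induction n, hn using Nat.le_induction with
  | base => rw [W_succ, W_zero, h0]; simp [sub]
  | succ n hn ih =>
    rw [W_succ, List.length_append]
    have : 1 ≤ (sub (f n)).length := by cases f n <;> simp [sub]
    omega

lemma pre_length (f : ℕ → Bool) (n : ℕ) : (pre f n).length = n := by simp [pre]

lemma g_isFib : IsFib g := by
  intro n
  change W g n = pre g (W g n).length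
  induction n with
  | zero => rfl
  | succ n ih =>
    have hL := W_length (f := g) n (fun _ _ => rfl)
    have h1 := g_first hL
    rw [W_succ, List.length_append]
    set L := (W g n).length with hLdef
    cases hg : g n
    · have h2 := g_second hL hg
      change W g n ++ [false, true] = pre g (L + 1 + 1)
      rw [pre_succ, pre_succ, h1, h2, ih]
      simp
    · change W g n ++ [false] = pre g (L + 1)
      rw [pre_succ, h1, ih]

lemma pre_get (f : ℕ → Bool) {n N : ℕ} (h : N < n) : (pre f n)[N]? = some (f N) := by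
  unfold pre
  rw [List.getElem?_map, List.getElem?_range h]; rfl

lemma eq_g {f : ℕ → Bool} (hf : IsFib f) : ∀ N, f N = g N := by
  have hW : ∀ n N, N < (W f n).length → (W f n)[N]? = some (f N) := by
    intro n N hN
    have h1 := pre_get f hN
    have h2 : W f n = pre f (W f n).length := hf n
    rwa [← h2] at h1
  have h0 : f 0 = false := by
    by_contra h
    rw [Bool.not_eq_false] at h
    have h1 : W f 1 = [false] := by rw [W_succ, W_zero, h]; rfl
    have h2 := hW 1 0 (by rw [h1]; simp)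
    rw [h1] at h2
    simp at h2
    rw [h] at h2
    exact absurd h2 (by decide)
  have hg0 : g 0 = false := by
    have h4 := tb
    norm_num at h4
    unfold g
    rw [decide_eq_false_iff_not, not_lt]
    have : Int.fract (((0 + 1 : ℕ) : ℝ) * φ) = φ - 1 := by
      rw [Int.fract_eq_iff]
      refine ⟨by linarith, by linarith, 1, by push_cast; ring⟩
    rw [this]; linarith
  have key : ∀ n N, N < (W f n).length → f N = g N := by
    intro n
    induction n with
    | zero => intro N hN; simp [W_zero] at hN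
    | succ n ih =>
      have hi : ∀ i, i ≤ n → f i = g i := by
        intro i hi
        rcases Nat.eq_zero_or_pos n with hn | hn
        · obtain rfl : i = 0 := by omega
          rw [h0, hg0]
        · have := W_ge f h0 n hn
          exact ih i (by omega)
      have hL := W_length n (fun i h => hi i h.le)
      intro N hN
      rw [W_succ, List.length_append] at hN
      rcases Nat.lt_or_ge N (W f n).length with h | h
      · exact ih N h
      · have h3 := hW (n + 1) N (by rw [W_succ, List.length_append]; exact hN)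
        rw [W_succ, List.getElem?_append_right h] at h3
        have hgf := g_first hL
        cases hfn : f n
        · rw [hfn] at h3 hN
          have hgn : g n = false := by rw [← hi n le_rfl, hfn]
          have hgs := g_second hL hgn
          simp only [sub, List.length_cons, List.length_nil] at hN
          rcases Nat.eq_or_lt_of_le h with h5 | h5
          · obtain rfl : N = (W f n).length := h5.symm
            rw [Nat.sub_self] at h3
            simp [sub] at h3
            rw [h3, hgf]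
          · obtain rfl : N = (W f n).length + 1 := by omega
            rw [show (W f n).length + 1 - (W f n).length = 1 by omega] at h3
            simp [sub] at h3
            rw [h3, hgs]
        · rw [hfn] at h3 hN
          simp only [sub, List.length_cons, List.length_nil] at hN
          obtain rfl : N = (W f n).length := by omega
          rw [Nat.sub_self] at h3
          simp [sub] at h3
          rw [h3, hgf]
  intro N
  rcases Nat.eq_zero_or_pos N with h | h
  · rw [h, h0, hg0]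
  · exact key N N (by have := W_ge f h0 N h; omega)

/-! ### Progressions -/

/-- points of a rotation staying in a short interval do not wrap -/
lemma nowrap {lo hi y s : ℝ} {P : ℤ} {k : ℕ} (hd : |s - P| < 1 - (hi - lo))
    (h : ∀ j : ℕ, j < k → lo ≤ Int.fract (y + j * s) ∧ Int.fract (y + j * s) < hi) :
    ∀ j : ℕ, j < k → Int.fract (y + j * s) = Int.fract y + j * (s - P) := by
  intro j
  induction j with
  | zero => intro _; simp
  | succ j ih =>
    intro hj
    have h1 := ih (by omega)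
    have h2 := h j (by omega)
    have h3 := h (j + 1) hj
    have h4 := Int.floor_add_fract (y + (j : ℝ) * s)
    have h5 := Int.floor_add_fract (y + ((j + 1 : ℕ) : ℝ) * s)
    set a := Int.fract (y + (j : ℝ) * s) with ha
    set b := Int.fract (y + ((j + 1 : ℕ) : ℝ) * s) with hb
    set t : ℤ := ⌊y + ((j + 1 : ℕ) : ℝ) * s⌋ - ⌊y + (j : ℝ) * s⌋ - P with ht
    have h6 : b - a = (s - P) - t := by
      rw [ht]; push_cast at h5 ⊢; linarith
    have h7 : |(t : ℝ)| < 1 := by
      have e1 : (t : ℝ) = (s - P) - (b - a) := by linarith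
      rw [e1]
      have e2 : |b - a| < hi - lo := by rw [abs_lt]; constructor <;> linarith [h2.1, h2.2, h3.1, h3.2]
      calc |(s - P) - (b - a)| ≤ |s - P| + |b - a| := abs_sub _ _
        _ < 1 := by linarith
    have h8 : t = 0 := by
      have : |t| < 1 := by exact_mod_cast h7
      exact Int.abs_lt_one_iff.mp this
    rw [h8] at h6
    push_cast at h6 ⊢
    linarith

lemma span {lo hi y s : ℝ} {P : ℤ} {k : ℕ} (hk : 1 ≤ k) (hd : |s - P| < 1 - (hi - lo))
    (h : ∀ j : ℕ, j < k → lo ≤ Int.fract (y + j * s) ∧ Int.fract (y + j * s) < hi) :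
    ((k : ℝ) - 1) * |s - P| < hi - lo := by
  have h1 := nowrap hd h (k - 1) (by omega)
  have h2 := h (k - 1) (by omega)
  have h3 := h 0 (by omega)
  simp only [Nat.cast_zero, zero_mul, add_zero] at h3
  rw [h1] at h2
  have h4 : ((k - 1 : ℕ) : ℝ) = (k : ℝ) - 1 := by push_cast [hk]; ring
  rw [h4] at h2
  have h5 : (0 : ℝ) ≤ (k : ℝ) - 1 := by rw [← h4]; positivity
  rw [← abs_of_nonneg h5, ← abs_mul, abs_lt]
  constructor <;> linarith [h2.1, h2.2, h3.1, h3.2]

/-- the norm form -/
lemma norm_ne (P : ℤ) (d : ℕ) (hd : 1 ≤ d) : P * P - P * d - d * d ≠ (0 : ℤ) := by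
  intro h
  have h1 : ((P : ℝ) - d * φ) * (P + d * (φ - 1)) = 0 := by
    have h2 : ((P * P - P * d - d * d : ℤ) : ℝ) = 0 := by rw [h]; simp
    push_cast at h2
    have := tsq
    linear_combination h2 - (d : ℝ) ^ 2 * this
  have hirr : Irrational ((d : ℝ) * φ) := tirr.natCast_mul (by omega)
  rcases mul_eq_zero.mp h1 with h3 | h3
  · exact hirr ⟨P, by push_cast; linarith⟩
  · exact hirr ⟨((d : ℤ) - P : ℤ), by push_cast; linarith⟩

lemma norm_eq (P : ℤ) (d : ℕ) : ((P * P - P * d - d * d : ℤ) : ℝ) =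
    ((P : ℝ) - d * φ) * ((P - d * φ) + d * (2 * φ - 1)) := by
  have := tsq
  push_cast
  linear_combination (d : ℝ) ^ 2 * this

/-- the main estimate -/
lemma main_case {d : ℕ} (hd : 1 ≤ d) {P : ℤ} (hP : |(d : ℝ) * φ - P| ≤ 1 / 2) {K : ℕ}
    (hK : (K : ℝ) * |(d : ℝ) * φ - P| < φ - 1) : (K : ℝ) < (3 - φ) * d := by
  have ht := tb
  norm_num at ht
  have hsq := tsq
  have hd1 : (1 : ℝ) ≤ d := by exact_mod_cast hd
  have hN := norm_ne P d hd
  have hNe := norm_eq P d
  set N : ℤ := P * P - P * d - d * d with hNdef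
  by_contra hcon
  rw [not_lt] at hcon
  have hK0 : (0 : ℝ) < K := by nlinarith
  rcases lt_or_ge (P : ℝ) ((d : ℝ) * φ) with hlt | hge
  · set δ := (d : ℝ) * φ - P with hδ
    have hδ0 : 0 < δ := by linarith
    rw [abs_of_pos hδ0] at hP hK
    have e1 : (N : ℝ) = -(δ * (d * (2 * φ - 1) - δ)) := by rw [hNe]; ring
    have e0 : 0 < (d : ℝ) * (2 * φ - 1) - δ := by nlinarith
    have e2 : (N : ℝ) < 0 := by rw [e1]; linarith [mul_pos hδ0 e0]
    have e3 : N < 0 := by exact_mod_cast e2
    have e4 : (N : ℝ) ≤ -1 := by exact_mod_cast (by omega : N ≤ -1)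
    have e5 : 1 < δ * (d * (2 * φ - 1)) := by nlinarith
    -- K δ < τ - 1 ≤ (τ-1) δ d (2τ-1) = δ d (3 - τ)
    have e6 : (φ - 1) * (δ * (d * (2 * φ - 1))) = δ * ((3 - φ) * d) := by
      linear_combination (2 * δ * d) * hsq
    have e7 : δ * ((3 - φ) * d) ≤ δ * K := mul_le_mul_of_nonneg_left hcon hδ0.le
    have e8 : (φ - 1) * 1 < (φ - 1) * (δ * (d * (2 * φ - 1))) :=
      mul_lt_mul_of_pos_left e5 (by linarith)
    linarith
  · have hne : (P : ℝ) ≠ (d : ℝ) * φ := by
      intro he
      have hirr : Irrational ((d : ℝ) * φ) := tirr.natCast_mul (by omega)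
      exact hirr ⟨P, by push_cast; linarith⟩
    have hgt : (d : ℝ) * φ < P := lt_of_le_of_ne hge (Ne.symm hne)
    set δ := (P : ℝ) - d * φ with hδ
    have hδ0 : 0 < δ := by linarith
    have habs : |(d : ℝ) * φ - P| = δ := by
      rw [abs_sub_comm, abs_of_pos hδ0]
    rw [habs] at hP hK
    have e1 : (N : ℝ) = δ * (δ + d * (2 * φ - 1)) := by rw [hNe]
    have e0 : 0 < δ + (d : ℝ) * (2 * φ - 1) := by nlinarith
    have e2 : (0 : ℝ) < N := by rw [e1]; exact mul_pos hδ0 e0
    have e3 : 0 < N := by exact_mod_cast e2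
    rcases eq_or_lt_of_le (show 1 ≤ N by omega) with h1 | h1
    · -- N = 1
      have hN1 : δ * (δ + d * (2 * φ - 1)) = 1 := by rw [← e1, ← h1]; simp
      set j : ℤ := 2 * d - K with hj
      have hjr : (j : ℝ) = 2 * d - K := by rw [hj]; push_cast; ring
      have f1 : 0 ≤ (d : ℝ) - j * φ := by
        rw [hjr]
        have : (3 - φ) * d * φ ≤ K * φ := by nlinarith
        nlinarith
      have f2 : (d : ℝ) - j * φ < δ := by
        rw [hjr]
        have g1 : (K : ℝ) * φ * δ < δ * (δ + d * (2 * φ - 1)) := by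
          rw [hN1]
          have : (K : ℝ) * δ * φ < (φ - 1) * φ := by nlinarith
          nlinarith
        have g2 : (K : ℝ) * φ < δ + d * (2 * φ - 1) := by
          by_contra hc
          rw [not_lt] at hc
          nlinarith
        linarith
      have f3 : 0 < (j : ℝ) := by nlinarith
      have hj1 : 1 ≤ j := by
        have : 0 < j := by exact_mod_cast f3
        omega
      have f4 : (((d : ℤ) * d - d * j - j * j : ℤ) : ℝ) = ((d : ℝ) - j * φ) * (d + j * (φ - 1)) := by
        push_cast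
        linear_combination (j : ℝ) ^ 2 * hsq
      have f5 : 0 < (d : ℝ) + j * (φ - 1) := by
        have := mul_pos f3 (show 0 < φ - 1 by linarith)
        linarith
      have f6 : (j : ℝ) * (φ - 1) ≤ d * (2 - φ) := by
        have h1 := mul_nonneg f1 (show 0 ≤ 2 - φ by linarith)
        have h2 : ((d : ℝ) - j * φ) * (2 - φ) = d * (2 - φ) - j * (φ - 1) := by
          linear_combination (j : ℝ) * hsq
        linarith
      have f7 : (((d : ℤ) * d - d * j - j * j : ℤ) : ℝ) < 1 := by
        rw [f4]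
        have : (d : ℝ) + j * (φ - 1) ≤ δ + d * (2 * φ - 1) := by
          have h1 : 0 ≤ (d : ℝ) * (3 * φ - 4) := mul_nonneg (by linarith) (by linarith)
          linarith
        calc ((d : ℝ) - j * φ) * (d + j * (φ - 1)) ≤ ((d : ℝ) - j * φ) * (δ + d * (2 * φ - 1)) :=
              mul_le_mul_of_nonneg_left this f1
          _ < δ * (δ + d * (2 * φ - 1)) := by
              apply mul_lt_mul_of_pos_right f2
              linarith
          _ = 1 := hN1
      have f8 : (0 : ℝ) ≤ (((d : ℤ) * d - d * j - j * j : ℤ) : ℝ) := by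
        rw [f4]; exact mul_nonneg f1 f5.le
      have f9 : (d : ℤ) * d - d * j - j * j = 0 := by
        have a1 : (d : ℤ) * d - d * j - j * j < 1 := by exact_mod_cast f7
        have a2 : 0 ≤ (d : ℤ) * d - d * j - j * j := by exact_mod_cast f8
        omega
      rw [f9] at f4
      simp only [Int.cast_zero] at f4
      rcases mul_eq_zero.mp f4.symm with h | h
      · have hirr : Irrational ((j : ℝ) * φ) := tirr.intCast_mul (by omega)
        exact hirr ⟨d, by push_cast; linarith⟩
      · linarith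
    · have e4 : (2 : ℝ) ≤ N := by exact_mod_cast (by omega : 2 ≤ N)
      have e5 : 1 < δ * (d * (2 * φ - 1)) := by nlinarith
      have e6 : (φ - 1) * (δ * (d * (2 * φ - 1))) = δ * ((3 - φ) * d) := by
        linear_combination (2 * δ * d) * hsq
      have e7 : δ * ((3 - φ) * d) ≤ δ * K := mul_le_mul_of_nonneg_left hcon hδ0.le
      have e8 : (φ - 1) * 1 < (φ - 1) * (δ * (d * (2 * φ - 1))) :=
        mul_lt_mul_of_pos_left e5 (by linarith)
      linarith

/-- odd integers `o` with `K - 2 ≤ o`, coming from the two-step walk -/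
lemma two_step {y s : ℝ} {P : ℤ} {k : ℕ} (hδ : 2 - φ ≤ |s - P|) (hδ' : |s - P| ≤ 1 / 2)
    (hk : 2 ≤ k)
    (h : ∀ j : ℕ, j < k → 2 - φ ≤ Int.fract (y + j * s) ∧ Int.fract (y + j * s) < 1) :
    ∃ o : ℤ, o % 2 = 1 ∧ (k : ℤ) - 3 ≤ o ∧ (o : ℝ) * (1 - 2 * |s - P|) < 2 * φ - 3 := by
  have ht := tb
  norm_num at ht
  set δ := |s - P| with hδd
  -- the sign
  obtain ⟨σ, hσ, hs⟩ : ∃ σ : ℤ, (σ = 1 ∨ σ = -1) ∧ s - P = σ * δ := by
    rcases abs_cases (s - P) with ⟨h1, -⟩ | ⟨h1, -⟩
    · exact ⟨1, Or.inl rfl, by rw [hδd, h1]; simp⟩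
    · exact ⟨-1, Or.inr rfl, by rw [hδd, h1]; simp⟩
  set P' : ℤ := 2 * P + σ with hP'
  have hη : 2 * s - P' = -(σ * (1 - 2 * δ)) := by
    rw [hP']; push_cast; linear_combination 2 * hs
  have hηabs : |2 * s - P'| = 1 - 2 * δ := by
    rw [hη, abs_neg, abs_mul]
    rw [abs_of_nonneg (show 0 ≤ 1 - 2 * δ by linarith)]
    rcases hσ with rfl | rfl <;> simp
  have hbase : |2 * s - P'| < 1 - (1 - (2 - φ)) := by rw [hηabs]; linarith
  -- even and odd subsequences
  have heven : ∀ m : ℕ, 2 * m < k →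
      Int.fract (y + ((2 * m : ℕ) : ℝ) * s) = Int.fract y + m * (2 * s - P') := by
    intro m hm
    have h1 := nowrap (lo := 2 - φ) (hi := 1) (y := y) (s := 2 * s) (P := P') (k := m + 1) hbase
      (fun j hj => by
        have := h (2 * j) (by omega)
        rw [show y + (j : ℝ) * (2 * s) = y + ((2 * j : ℕ) : ℝ) * s by push_cast; ring]
        exact this) m (by omega)
    rw [← h1]
    congr 1
    push_cast; ring
  have hodd : ∀ m : ℕ, 1 + 2 * m < k →
      Int.fract (y + ((1 + 2 * m : ℕ) : ℝ) * s) = Int.fract (y + s) + m * (2 * s - P') := by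
    intro m hm
    have h1 := nowrap (lo := 2 - φ) (hi := 1) (y := y + s) (s := 2 * s) (P := P') (k := m + 1)
      hbase (fun j hj => by
        have := h (1 + 2 * j) (by omega)
        rw [show y + s + (j : ℝ) * (2 * s) = y + ((1 + 2 * j : ℕ) : ℝ) * s by push_cast; ring]
        exact this) m (by omega)
    rw [← h1]
    congr 1
    push_cast; ring
  have h0 := h 0 (by omega)
  have h1 := h 1 (by omega)
  simp only [Nat.cast_zero, zero_mul, add_zero] at h0
  simp only [Nat.cast_one, one_mul] at h1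
  have h4 := Int.floor_add_fract y
  have h5 := Int.floor_add_fract (y + s)
  set a := Int.fract y with ha
  set b := Int.fract (y + s) with hb
  obtain ⟨t, ht'⟩ : ∃ t : ℤ, t = σ * (⌊y + s⌋ - ⌊y⌋ - P) := ⟨_, rfl⟩
  have hσ2 : (σ : ℝ) * σ = 1 := by rcases hσ with rfl | rfl <;> simp
  -- `b - a = σ (δ - t)`
  have h6 : b - a = σ * (δ - t) := by
    rw [ht']
    push_cast
    linear_combination h5 - h4 + hs + ((⌊y + s⌋ : ℝ) - ⌊y⌋ - P) * hσ2
  have h7 : |δ - (t : ℝ)| < φ - 1 := by
    have e1 : |b - a| = |δ - (t : ℝ)| := by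
      rw [h6, abs_mul]
      rcases hσ with rfl | rfl <;> simp
    rw [← e1, abs_lt]
    constructor <;> linarith [h0.1, h0.2, h1.1, h1.2]
  rw [abs_lt] at h7
  have h8 : t = 0 ∨ t = 1 := by
    have e1 : -1 < (t : ℝ) := by linarith
    have e2 : (t : ℝ) < 2 := by linarith
    have e3 : -1 < t := by exact_mod_cast e1
    have e4 : t < 2 := by exact_mod_cast e2
    omega
  rcases h8 with h8 | h8
  · -- the even-indexed points
    obtain ⟨m, hm⟩ : ∃ m, k - 1 = 2 * m ∨ k - 1 = 2 * m + 1 := ⟨(k - 1) / 2, by omega⟩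
    have e1 := heven m (by omega)
    have e2 := h (2 * m) (by omega)
    rw [e1, hη] at e2
    refine ⟨2 * m - 1, by omega, by omega, ?_⟩
    rw [h8] at h6
    push_cast at h6 ⊢
    rcases hσ with rfl | rfl
    · push_cast at h6 e2
      nlinarith [h0.1, h0.2, h1.1, h1.2, e2.1, e2.2]
    · push_cast at h6 e2
      nlinarith [h0.1, h0.2, h1.1, h1.2, e2.1, e2.2]
  · obtain ⟨m, hm⟩ : ∃ m, k - 2 = 2 * m ∨ k - 2 = 2 * m + 1 := ⟨(k - 2) / 2, by omega⟩
    have e1 := hodd m (by omega)
    have e2 := h (1 + 2 * m) (by omega)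
    rw [e1, hη] at e2
    refine ⟨2 * m + 1, by omega, by omega, ?_⟩
    rw [h8] at h6
    push_cast at h6 ⊢
    rcases hσ with rfl | rfl
    · push_cast at h6 e2
      nlinarith [h0.1, h0.2, h1.1, h1.2, e2.1, e2.2]
    · push_cast at h6 e2
      nlinarith [h0.1, h0.2, h1.1, h1.2, e2.1, e2.2]

/-- the bound for the jumping case -/
lemma jump_case {d : ℕ} (hd : 1 ≤ d) {P : ℤ} (h1 : 2 - φ ≤ |(d : ℝ) * φ - P|)
    (h2 : |(d : ℝ) * φ - P| ≤ 1 / 2) {k : ℕ} {o : ℤ} (ho : o % 2 = 1) (hko : (k : ℤ) - 3 ≤ o)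
    (h3 : (o : ℝ) * (1 - 2 * |(d : ℝ) * φ - P|) < 2 * φ - 3) : ((k : ℝ) - 1) < (3 - φ) * d := by
  have ht := tb
  norm_num at ht
  have hsq := tsq
  have hko' : (k : ℝ) - 3 ≤ o := by exact_mod_cast hko
  rcases Nat.lt_or_ge d 7 with hlt | hge
  · -- small `d`
    rw [abs_le] at h2
    rw [le_abs] at h1
    have hP : ∀ q : ℤ, (q : ℝ) - 1 / 2 < d * φ → (d : ℝ) * φ < q + 1 / 2 → P = q := by
      intro q hq1 hq2
      have a1 : (P : ℝ) < q + 1 := by linarith
      have a2 : (q : ℝ) - 1 < P := by linarith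
      have a3 : P < q + 1 := by exact_mod_cast a1
      have a4 : q - 1 < P := by exact_mod_cast a2
      omega
    interval_cases d
    · -- d = 1
      have hPe := hP 2 (by norm_num; linarith) (by norm_num; linarith)
      subst hPe
      have habs : |((1 : ℕ) : ℝ) * φ - ((2 : ℤ) : ℝ)| = 2 - φ := by
        rw [abs_of_neg (by push_cast; linarith)]; push_cast; ring
      rw [habs] at h3
      have a1 : (o : ℝ) < 1 := by nlinarith
      have a2 : o < 1 := by exact_mod_cast a1
      have a3 : k ≤ 2 := by omega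
      have a4 : (k : ℝ) ≤ 2 := by exact_mod_cast a3
      push_cast; linarith
    · exfalso
      have hPe := hP 3 (by norm_num; linarith) (by norm_num; linarith)
      subst hPe
      push_cast at h1
      rcases h1 with h1 | h1 <;> linarith
    · exfalso
      have hPe := hP 5 (by norm_num; linarith) (by norm_num; linarith)
      subst hPe
      push_cast at h1
      rcases h1 with h1 | h1 <;> linarith
    · -- d = 4
      have hPe := hP 6 (by norm_num; linarith) (by norm_num; linarith)
      subst hPe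
      have habs : |((4 : ℕ) : ℝ) * φ - ((6 : ℤ) : ℝ)| = 4 * φ - 6 := by
        rw [abs_of_pos (by push_cast; linarith)]; push_cast; ring
      rw [habs] at h3
      have a1 : (o : ℝ) < 5 := by
        by_contra hc
        rw [not_lt] at hc
        nlinarith
      have a2 : o < 5 := by exact_mod_cast a1
      have a3 : k ≤ 6 := by omega
      have a4 : (k : ℝ) ≤ 6 := by exact_mod_cast a3
      push_cast; linarith
    · exfalso
      have hPe := hP 8 (by norm_num; linarith) (by norm_num; linarith)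
      subst hPe
      push_cast at h1
      rcases h1 with h1 | h1 <;> linarith
    · exfalso
      have hPe := hP 10 (by norm_num; linarith) (by norm_num; linarith)
      subst hPe
      push_cast at h1
      rcases h1 with h1 | h1 <;> linarith
  · have hd7 : (7 : ℝ) ≤ d := by exact_mod_cast hge
    -- the norm form at `2 d`
    obtain ⟨σ, hσ, hs⟩ : ∃ σ : ℤ, (σ = 1 ∨ σ = -1) ∧
        (d : ℝ) * φ - P = σ * |(d : ℝ) * φ - P| := by
      rcases abs_cases ((d : ℝ) * φ - P) with ⟨h1, -⟩ | ⟨h1, -⟩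
      · exact ⟨1, Or.inl rfl, by rw [h1]; simp⟩
      · exact ⟨-1, Or.inr rfl, by rw [h1]; simp⟩
    set δ := |(d : ℝ) * φ - P| with hδ
    have hNe := norm_eq (2 * P + σ) (2 * d)
    have hN := norm_ne (2 * P + σ) (2 * d) (by omega)
    set N : ℤ := (2 * P + σ) * (2 * P + σ) - (2 * P + σ) * ((2 * d : ℕ) : ℤ) -
      ((2 * d : ℕ) : ℤ) * ((2 * d : ℕ) : ℤ) with hNdef
    set e : ℝ := 1 - 2 * δ with he
    have he0 : 0 ≤ e := by linarith
    have he1 : e ≤ 2 * φ - 3 := by linarith
    have hlin : (((2 * P + σ : ℤ) : ℝ) - ((2 * d : ℕ) : ℝ) * φ) = σ * e := by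
      rw [he]; push_cast; linear_combination (-2) * hs
    rw [hlin] at hNe
    have hNabs : (1 : ℝ) ≤ |(N : ℝ)| := by
      rw [← Int.cast_abs]
      exact_mod_cast Int.one_le_abs hN
    have hσabs : |(σ : ℝ)| = 1 := by rcases hσ with rfl | rfl <;> simp
    have hbound : (1 : ℝ) ≤ e * (e + 2 * d * (2 * φ - 1)) := by
      rw [hNe, abs_mul, abs_mul, hσabs, one_mul, abs_of_nonneg he0] at hNabs
      have a1 : |(σ : ℝ) * e + ((2 * d : ℕ) : ℝ) * (2 * φ - 1)| ≤ e + 2 * d * (2 * φ - 1) := by
        refine (abs_add_le _ _).trans ?_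
        rw [abs_mul, hσabs, one_mul, abs_of_nonneg he0, abs_of_nonneg (mul_nonneg (Nat.cast_nonneg _) (by linarith))]
        push_cast; linarith
      exact hNabs.trans (mul_le_mul_of_nonneg_left a1 he0)
    -- hence `o < (2τ-3)(e + 2d(2τ-1))`
    have hpos : 0 < e + 2 * d * (2 * φ - 1) := by nlinarith
    have ho' : (o : ℝ) < (2 * φ - 3) * (e + 2 * d * (2 * φ - 1)) := by
      rcases le_or_gt (o : ℝ) 0 with h | h
      · have := mul_pos (show (0 : ℝ) < 2 * φ - 3 by linarith) hpos
        linarith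
      · have a1 : (o : ℝ) * 1 ≤ o * (e * (e + 2 * d * (2 * φ - 1))) :=
          mul_le_mul_of_nonneg_left hbound h.le
        have a2 : (o : ℝ) * e * (e + 2 * d * (2 * φ - 1)) <
            (2 * φ - 3) * (e + 2 * d * (2 * φ - 1)) := mul_lt_mul_of_pos_right h3 hpos
        linarith
    have a3 : (2 * φ - 3) * (e + 2 * d * (2 * φ - 1)) ≤
        (2 * φ - 3) * (2 * φ - 3) + 2 * d * (7 - 4 * φ) := by
      have a4 : (2 * φ - 3) * e ≤ (2 * φ - 3) * (2 * φ - 3) :=
        mul_le_mul_of_nonneg_left he1 (by linarith)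
      have a5 : (2 * φ - 3) * (2 * d * (2 * φ - 1)) = 2 * d * (7 - 4 * φ) := by
        linear_combination (8 * (d : ℝ)) * hsq
      linarith
    have a6 : (2 * φ - 3) * (2 * φ - 3) = 13 - 8 * φ := by linear_combination 4 * hsq
    nlinarith

/-- the bound for every progression -/
lemma ap_bound {d k : ℕ} (hd : 1 ≤ d) (hk : 1 ≤ k) (h : HasAP g d k) :
    ((k : ℝ) - 1) < (3 - φ) * d := by
  have ht := tb
  norm_num at ht
  have hd1 : (1 : ℝ) ≤ d := by exact_mod_cast hd
  obtain ⟨i, hi⟩ := h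
  set P : ℤ := round ((d : ℝ) * φ) with hP
  have hround : |(d : ℝ) * φ - P| ≤ 1 / 2 := abs_sub_round _
  have hpt : ∀ j : ℕ, ((i + j * d + 1 : ℕ) : ℝ) * φ = ((i + 1 : ℕ) : ℝ) * φ + j * ((d : ℝ) * φ) := by
    intro j; push_cast; ring
  cases hg : g i
  · -- letter 0
    have hz : ∀ j : ℕ, j < k → 2 - φ ≤ Int.fract (((i + 1 : ℕ) : ℝ) * φ + j * ((d : ℝ) * φ)) ∧
        Int.fract (((i + 1 : ℕ) : ℝ) * φ + j * ((d : ℝ) * φ)) < 1 := by
      intro j hj
      have h1 := hi j hj
      rw [hg] at h1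
      unfold g at h1
      rw [decide_eq_false_iff_not, not_lt, hpt] at h1
      exact ⟨h1, Int.fract_lt_one _⟩
    rcases lt_or_ge |(d : ℝ) * φ - P| (2 - φ) with hs | hs
    · have h1 := span hk (lo := 2 - φ) (hi := 1) (P := P) (by linarith) hz
      have h2 := main_case hd hround (K := k - 1) (by
        rw [show ((k - 1 : ℕ) : ℝ) = (k : ℝ) - 1 by push_cast [hk]; ring]; linarith)
      rwa [show ((k - 1 : ℕ) : ℝ) = (k : ℝ) - 1 by push_cast [hk]; ring] at h2
    · rcases Nat.lt_or_ge k 2 with hk2 | hk2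
      · have : (k : ℝ) ≤ 1 := by exact_mod_cast (by omega : k ≤ 1)
        nlinarith
      · obtain ⟨o, ho, hko, h3⟩ := two_step hs hround hk2 hz
        exact jump_case hd hs hround ho hko h3
  · -- letter 1
    have hz : ∀ j : ℕ, j < k → 0 ≤ Int.fract (((i + 1 : ℕ) : ℝ) * φ + j * ((d : ℝ) * φ)) ∧
        Int.fract (((i + 1 : ℕ) : ℝ) * φ + j * ((d : ℝ) * φ)) < 2 - φ := by
      intro j hj
      have h1 := hi j hj
      rw [hg] at h1
      unfold g at h1
      rw [decide_eq_true_eq, hpt] at h1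
      exact ⟨Int.fract_nonneg _, h1⟩
    have h1 := span hk (lo := 0) (hi := 2 - φ) (P := P) (by linarith) hz
    have h2 := main_case hd hround (K := k - 1) (by
      rw [show ((k - 1 : ℕ) : ℝ) = (k : ℝ) - 1 by push_cast [hk]; ring]; linarith)
    rwa [show ((k - 1 : ℕ) : ℝ) = (k : ℝ) - 1 by push_cast [hk]; ring] at h2

/-- **The conjecture holds.** The Fibonacci word exists, and for the fixed point `f` of `0 ↦ 01`,
`1 ↦ 0` and every `d ≥ 1` the largest length `A(d)` of a monochromatic arithmetic progression of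
difference `d` in `f` exists and satisfies `(A(d) - 1) / d < √5 / τ`. -/
theorem result : (∃ f : ℕ → Bool, IsFib f) ∧ ∀ f : ℕ → Bool, IsFib f → ∀ d : ℕ, 1 ≤ d →
    ∃ A : ℕ, IsGreatest {k : ℕ | HasAP f d k} A ∧
      ((A : ℝ) - 1) / d < Real.sqrt 5 / ((1 + Real.sqrt 5) / 2) := by
  refine ⟨⟨g, g_isFib⟩, fun f hf d hd => ?_⟩
  obtain rfl : f = g := funext (eq_g hf)
  have ht := tb
  norm_num at ht
  have hd1 : (1 : ℝ) ≤ d := by exact_mod_cast hd
  have hone : 1 ∈ {k : ℕ | HasAP g d k} := ⟨0, fun j hj => by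
    obtain rfl : j = 0 := by omega
    simp⟩
  have hbdd : BddAbove {k : ℕ | HasAP g d k} := by
    refine ⟨3 * d + 1, fun k hk => ?_⟩
    rcases Nat.lt_or_ge k 1 with h | h
    · omega
    · have h1 := ap_bound hd h hk
      have h2 : (k : ℝ) ≤ ((3 * d + 1 : ℕ) : ℝ) := by push_cast; nlinarith
      exact_mod_cast h2
  refine ⟨sSup {k : ℕ | HasAP g d k}, ⟨Nat.sSup_mem ⟨1, hone⟩ hbdd, fun k hk => le_csSup hbdd hk⟩, ?_⟩
  have hA := Nat.sSup_mem ⟨1, hone⟩ hbdd
  have hA1 : 1 ≤ sSup {k : ℕ | HasAP g d k} := le_csSup hbdd hone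
  have h1 := ap_bound hd hA1 hA
  have h2 := ratio
  rw [show Real.goldenRatio = (1 + Real.sqrt 5) / 2 from rfl] at h2
  rw [h2, div_lt_iff₀ (by linarith)]
  exact h1

end Pool.Agent.Results.MP_ca4252_co.SlopeBound
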